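import Pool.Agent.H71.AL.Targets

/-!
COD: every sequence of homeomorphisms of the line has a canonical code.
-/

set_option autoImplicit false

open Set
open Pool.Agent.AL

namespace Pool.Agent.H36.ALV

lemma dbl_even (h : ℕ → ℝ ≃ₜ ℝ) (k : ℕ) (x : ℝ) : dbl h (2 * k) x = h k x := by
  have h1 : (2 * k) % 2 = 0 := by omega
  have h2 : (2 * k) / 2 = k := by omega
  simp only [dbl, h1, h2, if_true]

lemma dbl_odd (h : ℕ → ℝ ≃ₜ ℝ) (k : ℕ) (x : ℝ) : dbl h (2 * k + 1) x = (h k).symm x := by
  have h1 : ¬ (2 * k + 1) % 2 = 0 := by omega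
  have h2 : (2 * k + 1) / 2 = k := by omega
  simp only [dbl, h1, h2, if_false]

theorem pf_COD (hG : T_GPR) (hE : T_EXI) (hT : T_TRC) (hH : T_HOM) : T_COD := by
  intro h
  classical
  have hGp := hG h
  obtain ⟨e, hinj, hds, hiv, hcr⟩ := hE (List ℕ) (gr h) hGp
  have hex : ∀ k m, ∃ n, e n = dbl h k (e m) := by
    intro k m
    obtain ⟨n, hn⟩ := hiv [k] (e m) ⟨m, rfl⟩
    exact ⟨n, hn⟩
  choose F hF using hex
  let y : Y := (fun m n => decide (e m < e n), F)
  have hlt : ∀ m n, lt y m n ↔ e m < e n := by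
    intro m n
    simp [lt, y]
  have hem : Em (lt y) e := ⟨hinj, hlt, hds⟩
  have hwd : ∀ w m, e (wd y.2 w m) = gr h w (e m) := by
    intro w
    induction w with
    | nil => intro m; rfl
    | cons k w ih =>
      intro m
      show e (F k (wd y.2 w m)) = dbl h k (wd (dbl h) w (e m))
      rw [hF]
      exact congrArg (dbl h k) (ih m)
  have hDL : DL y := by
    refine ⟨⟨?_, ?_, ?_⟩, ?_, ?_, ?_, ?_, ?_⟩
    · intro a ha
      exact lt_irrefl _ ((hlt a a).1 ha)
    · intro a b hab
      rcases lt_trichotomy (e a) (e b) with h1 | h1 | h1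
      · exact Or.inl ((hlt a b).2 h1)
      · exact absurd (hinj h1) hab
      · exact Or.inr ((hlt b a).2 h1)
    · intro a b c h1 h2
      exact (hlt a c).2 (lt_trans ((hlt a b).1 h1) ((hlt b c).1 h2))
    · intro a b hab
      obtain ⟨d, ⟨c, rfl⟩, h1, h2⟩ := hds _ _ ((hlt a b).1 hab)
      exact ⟨c, (hlt a c).2 h1, (hlt c b).2 h2⟩
    · intro a
      obtain ⟨d, ⟨c, rfl⟩, h1, -⟩ := hds (e a) (e a + 1) (by linarith)
      exact ⟨c, (hlt a c).2 h1⟩
    · intro a
      obtain ⟨d, ⟨c, rfl⟩, -, h1⟩ := hds (e a - 1) (e a) (by linarith)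
      exact ⟨c, (hlt c a).2 h1⟩
    · intro k m
      constructor
      · apply hinj
        show e (F (2 * k + 1) (F (2 * k) m)) = e m
        rw [hF, hF, dbl_odd, dbl_even]
        exact (h k).symm_apply_apply _
      · apply hinj
        show e (F (2 * k) (F (2 * k + 1) m)) = e m
        rw [hF, hF, dbl_even, dbl_odd]
        exact (h k).apply_symm_apply _
    · intro k
      rcases hGp.mono [2 * k] with h1 | h1
      · left
        intro a b hab
        rw [hlt]
        show e (F (2 * k) a) < e (F (2 * k) b)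
        rw [hF, hF]
        exact h1 _ _ ((hlt a b).1 hab)
      · right
        intro a b hab
        rw [hlt]
        show e (F (2 * k) b) < e (F (2 * k) a)
        rw [hF, hF]
        exact h1 _ _ ((hlt a b).1 hab)
  have hCn : Cn (lt y) (wd y.2) := (hT (List ℕ) (gr h) (lt y) (wd y.2) e ⟨hGp, hem, hwd⟩).2 hcr
  obtain ⟨h1, h1e, -, h1c⟩ := hH y e hDL hem
  have hdense : Dense (range e) := by
    refine dense_of_exists_between fun a b hab => ?_
    obtain ⟨d, hd, h2, h3⟩ := hds a b hab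
    exact ⟨d, hd, h2, h3⟩
  have heq : ∀ k, (fun x => h k x) = fun x => h1 k x := by
    intro k
    refine Continuous.ext_on hdense (h k).continuous (h1 k).continuous ?_
    rintro _ ⟨m, rfl⟩
    show h k (e m) = h1 k (e m)
    rw [← h1e, ← dbl_even]
    exact (hF _ _).symm
  refine ⟨y, e, ⟨hDL, hCn⟩, hem, (h1c (rs h)).2 ?_⟩
  funext k q
  exact congrFun (heq k) (q : ℝ)

end Pool.Agent.H36.ALV
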